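import Pool.Agent.Helper61.QT.GoalsH
import Pool.Agent.Helper59.QS.OD2
import Pool.Agent.Helper57.QS.OD3
import Pool.Agent.Helper88.QS.OD4

/-!
# Project QT, packet OD5: `C¹` dependence on a real parameter
-/

set_option autoImplicit false

open Set MeasureTheory intervalIntegral

namespace Pool.Agent.Helper22.QT

open Pool.Agent.Helper61.QS (V En)
open Pool.Agent.Helper61.QT

theorem goalOD5 : G_OD5 := by
  intro n c hc hskew U hU0 hU t
  have h2 := Pool.Agent.Helper59.QS.goalOD2
  have h3 := Pool.Agent.Helper57.QS.goalOD3 h2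
  have h4 := Pool.Agent.Helper88.QS.goalOD4 h2 h3
  obtain ⟨D, hD, hD0, hDt⟩ := h4 n c hc hskew U hU0 hU
  have hcc : Continuous c := hc.continuous
  have hUc : Continuous (fun z : ℝ × ℝ => U z.1 z.2) := h3 ℝ n c hcc hskew U hU0 hU
  have hun : ∀ l t, U l t ∈ unitary (En n) := fun l =>
    (h2 n (fun t => c (l, t)) (U l) (fun t => hskew _) (hU0 l) (hU l)).1
  have hUs : ∀ l t, U l t * star (U l t) = 1 := fun l t => (Unitary.mem_iff.1 (hun l t)).2
  obtain ⟨c', hc'⟩ : ∃ c' : ℝ × ℝ → En n, c' = fun z => fderiv ℝ c z (1, 0) := ⟨_, rfl⟩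
  have hc'c : Continuous c' := by
    rw [hc']
    exact (hc.continuous_fderiv (by norm_num)).clm_apply continuous_const
  have hU1 : ∀ l, Continuous (U l) := fun l =>
    continuous_iff_continuousAt.2 fun t => (hU l t).continuousAt
  obtain ⟨G, hG⟩ : ∃ G : ℝ → ℝ → En n, G = fun l τ => star (U l τ) * c' (l, τ) * U l τ :=
    ⟨_, rfl⟩
  have hGc : Continuous (fun z : ℝ × ℝ => G z.1 z.2) := by
    simp only [hG]
    refine Continuous.mul (Continuous.mul (continuous_star.comp hUc) ?_) hUc
    exact hc'c
  have hW : ∀ l t, HasDerivAt (fun τ => star (U l τ) * D l τ) (G l t) t := by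
    intro l t
    have h5 : HasDerivAt (fun τ => star (U l τ)) (star (c (l, t) * U l t)) t := (hU l t).star
    have h6 := h5.mul (hDt l t)
    have h7 : star (c (l, t) * U l t) * D l t +
        star (U l t) * (c (l, t) * D l t + fderiv ℝ c (l, t) (1, 0) * U l t) = G l t := by
      simp only [hG, hc']
      rw [star_mul, hskew]
      noncomm_ring
    rw [h7] at h6
    exact h6
  have hint : ∀ l, D l t = U l t * ∫ τ in (0 : ℝ)..t, G l τ := by
    intro l
    have hGl : Continuous (G l) :=
      hGc.comp (by fun_prop : Continuous fun τ : ℝ => ((l, τ) : ℝ × ℝ))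
    have h7 : ∫ τ in (0 : ℝ)..t, G l τ = star (U l t) * D l t - star (U l 0) * D l 0 :=
      intervalIntegral.integral_eq_sub_of_hasDerivAt
        (f := fun τ => star (U l τ) * D l τ) (f' := G l)
        (fun τ _ => hW l τ) (hGl.intervalIntegrable _ _)
    rw [h7, hD0, mul_zero, sub_zero, ← mul_assoc, hUs, one_mul]
  have hDc : Continuous (fun l => D l t) := by
    have h8 : (fun l => D l t) = fun l => U l t * ∫ τ in (0 : ℝ)..t, G l τ := funext hint
    rw [h8]
    refine Continuous.mul ?_ ?_
    · exact hUc.comp (by fun_prop : Continuous fun l : ℝ => ((l, t) : ℝ × ℝ))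
    · exact intervalIntegral.continuous_parametric_intervalIntegral_of_continuous' hGc _ _
  rw [contDiff_one_iff_deriv]
  refine ⟨fun l => (hD l t).differentiableAt, ?_⟩
  have h9 : deriv (fun l => U l t) = fun l => D l t := funext fun l => (hD l t).deriv
  rw [h9]
  exact hDc

end Pool.Agent.Helper22.QT
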